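import Mathlib.SetTheory.Cardinal.Regular

/-!
Tree forcings on the generalised Cantor tree `2^{<κ}`.
-/

universe u

namespace Pool.Agent.Work.MP_c1fc37_lc

open Cardinal Set

/-- A node of `2^{<κ}`: a function from an ordinal `len < κ` to `{0,1}`. -/
structure Node (κ : Cardinal.{u}) : Type (u + 1) where
  len : Ordinal.{u}
  len_lt : len < κ.ord
  val : Iio len → Bool

variable {κ : Cardinal.{u}}

/-- `s` is an initial segment of `t`. -/
def Node.Init (s t : Node κ) : Prop :=
  ∃ h : s.len ≤ t.len, ∀ i : Iio s.len, s.val i = t.val ⟨i.1, lt_of_lt_of_le i.2 h⟩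

/-- `u` is the one-step extension of `t` by the bit `b`. -/
def Node.IsSnoc (t : Node κ) (b : Bool) (u : Node κ) : Prop :=
  t.Init u ∧ u.len = t.len + 1 ∧ ∀ h : t.len < u.len, u.val ⟨t.len, h⟩ = b

/-- A tree is a subset of `2^{<κ}` closed under initial segments. -/
def IsTree (T : Set (Node κ)) : Prop :=
  ∀ s t : Node κ, s.Init t → t ∈ T → s ∈ T

/-- `T_t`: the nodes of `T` comparable with `t`. -/
def below (T : Set (Node κ)) (t : Node κ) : Set (Node κ) :=
  {s | s ∈ T ∧ (s.Init t ∨ t.Init s)}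

/-- `t` is splitting in `T`: both one-step extensions of `t` lie in `T`. -/
def Splitting (T : Set (Node κ)) (t : Node κ) : Prop :=
  ∀ b : Bool, ∃ u ∈ T, t.IsSnoc b u

/-- A tree forcing: a nonempty set of nonempty trees (ordered by inclusion) in which every node of
every condition extends to a splitting node, closed under `T ↦ T_t`. -/
structure IsTreeForcing (P : Set (Set (Node κ))) : Prop where
  nonempty : P.Nonempty
  isTree : ∀ T ∈ P, IsTree T
  tree_nonempty : ∀ T ∈ P, T.Nonempty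
  exists_splitting : ∀ T ∈ P, ∀ t ∈ T, ∃ s ∈ T, t.Init s ∧ Splitting T s
  below_mem : ∀ T ∈ P, ∀ t ∈ T, below T t ∈ P

/-- `<κ`-closed: every descending sequence of conditions of length `δ < κ` has a lower bound. -/
def IsLtClosed (P : Set (Set (Node κ))) : Prop :=
  ∀ δ : Ordinal.{u}, δ < κ.ord → ∀ p : Iio δ → Set (Node κ), (∀ i, p i ∈ P) →
    (∀ i j, i ≤ j → p j ⊆ p i) → ∃ q ∈ P, ∀ i, q ⊆ p i

/-- Two conditions are compatible if they have a common extension in `P`. -/
def Compatible (P : Set (Set (Node κ))) (p q : Set (Node κ)) : Prop :=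
  ∃ r ∈ P, r ⊆ p ∧ r ⊆ q

/-- `κ⁺`-cc: every antichain of `P` has size at most `κ`. -/
def IsSuccCC (P : Set (Set (Node κ))) : Prop :=
  ∀ A : Set (Set (Node κ)), A ⊆ P → A.Pairwise (fun p q => ¬ Compatible P p q) →
    #A ≤ Cardinal.lift.{u + 1} κ

/-- A `P`-name `x` for an element of `κ^κ`, given by its forcing relation:
`forces p α β` means that the condition `p` forces `x(α) = β`. -/
structure Name (P : Set (Set (Node κ))) where
  forces : Set (Node κ) → Iio κ.ord → Iio κ.ord → Prop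
  mono : ∀ p ∈ P, ∀ q ∈ P, q ⊆ p → ∀ α β, forces p α β → forces q α β
  unique : ∀ p ∈ P, ∀ α β γ, forces p α β → forces p α γ → β = γ
  dense : ∀ p ∈ P, ∀ α, ∃ q ∈ P, q ⊆ p ∧ ∃ β, forces q α β
  regular : ∀ p ∈ P, ∀ α β, (∀ q ∈ P, q ⊆ p → ∃ r ∈ P, r ⊆ q ∧ forces r α β) → forces p α β

/-- The condition `q` forces `x(α) < z(α)` for all `α < κ` (`z` a ground model function). -/
def Name.ForcesBound {P : Set (Set (Node κ))} (x : Name P) (q : Set (Node κ))
    (z : Iio κ.ord → Iio κ.ord) : Prop :=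
  ∀ α β, ∀ r ∈ P, r ⊆ q → x.forces r α β → β < z α

/-- `κ^κ`-bounding: for every name `x` for an element of `κ^κ`, the conditions forcing `x` to be
bounded everywhere by some ground model function `z ∈ κ^κ` are dense. -/
def IsBounding (P : Set (Set (Node κ))) : Prop :=
  ∀ x : Name P, ∀ p ∈ P, ∃ q ∈ P, q ⊆ p ∧ ∃ z : Iio κ.ord → Iio κ.ord, x.ForcesBound q z

end Pool.Agent.Work.MP_c1fc37_lc
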