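import Pool.Agent.Work.MP_c1fc37_lc.Defs

universe u

namespace Pool.Agent.Work.MP_c1fc37_lc

open Cardinal Set

variable {κ : Cardinal.{u}}

open Classical in
/-- The bit of a node at an ordinal (false outside the domain). -/
noncomputable def Node.bit (t : Node κ) (i : Ordinal.{u}) : Bool :=
  if h : i < t.len then t.val ⟨i, h⟩ else false

lemma Node.bit_of_lt (t : Node κ) {i : Ordinal.{u}} (h : i < t.len) : t.bit i = t.val ⟨i, h⟩ := by
  simp [Node.bit, h]

lemma Node.init_iff {s t : Node κ} :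
    s.Init t ↔ s.len ≤ t.len ∧ ∀ i < s.len, s.bit i = t.bit i := by
  constructor
  · rintro ⟨h, hv⟩
    refine ⟨h, fun i hi => ?_⟩
    rw [s.bit_of_lt hi, t.bit_of_lt (lt_of_lt_of_le hi h)]
    exact hv ⟨i, hi⟩
  · rintro ⟨h, hv⟩
    refine ⟨h, fun i => ?_⟩
    have := hv i.1 i.2
    rwa [s.bit_of_lt i.2, t.bit_of_lt (lt_of_lt_of_le i.2 h)] at this

lemma Node.ext_bit {s t : Node κ} (h1 : s.len = t.len) (h2 : ∀ i < s.len, s.bit i = t.bit i) :
    s = t := by
  obtain ⟨a, ha, f⟩ := s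
  obtain ⟨b, hb, g⟩ := t
  simp only at h1
  subst h1
  have : f = g := by
    funext i
    have := h2 i.1 i.2
    rwa [Node.bit_of_lt _ i.2, Node.bit_of_lt _ i.2] at this
  subst this
  rfl

lemma Node.init_refl (s : Node κ) : s.Init s := Node.init_iff.2 ⟨le_rfl, fun _ _ => rfl⟩

lemma Node.Init.trans {s t v : Node κ} (h1 : s.Init t) (h2 : t.Init v) : s.Init v := by
  rw [Node.init_iff] at *
  exact ⟨h1.1.trans h2.1, fun i hi => (h1.2 i hi).trans (h2.2 i (lt_of_lt_of_le hi h1.1))⟩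

lemma Node.Init.eq_of_len {s t : Node κ} (h : s.Init t) (hl : s.len = t.len) : s = t :=
  Node.ext_bit hl (Node.init_iff.1 h).2

/-- Restriction of a node. -/
noncomputable def Node.restr (t : Node κ) (a : Ordinal.{u}) : Node κ :=
  ⟨min a t.len, lt_of_le_of_lt (min_le_right _ _) t.len_lt, fun i => t.bit i.1⟩

@[simp] lemma Node.restr_len (t : Node κ) (a : Ordinal.{u}) : (t.restr a).len = min a t.len := rfl

lemma Node.restr_bit (t : Node κ) {a i : Ordinal.{u}} (h : i < min a t.len) :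
    (t.restr a).bit i = t.bit i := by
  rw [Node.bit_of_lt (t.restr a) h]
  rfl

lemma Node.restr_init (t : Node κ) (a : Ordinal.{u}) : (t.restr a).Init t :=
  Node.init_iff.2 ⟨min_le_right _ _, fun _ hi => t.restr_bit hi⟩

lemma Node.restr_restr (t : Node κ) {a b : Ordinal.{u}} (h : a ≤ b) :
    (t.restr b).restr a = t.restr a := by
  have hl : min a (min b t.len) = min a t.len := by
    rw [← min_assoc, min_eq_left h]
  apply Node.ext_bit
  · simpa using hl
  · intro i hi
    simp only [Node.restr_len] at hi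
    rw [Node.restr_bit _ (by simpa using hi), Node.restr_bit _ (lt_of_lt_of_le hi (min_le_right _ _)),
      Node.restr_bit _ (hl ▸ hi)]

/-- `u` properly extends `t`, taking the bit `b` right after `t`. -/
def Node.Ext (t : Node κ) (b : Bool) (u : Node κ) : Prop :=
  t.Init u ∧ t.len < u.len ∧ u.bit t.len = b

lemma Node.IsSnoc.ext {t v : Node κ} {b : Bool} (h : t.IsSnoc b v) : t.Ext b v := by
  obtain ⟨h1, h2, h3⟩ := h
  have hl : t.len < v.len := by rw [h2]; exact Order.lt_add_one_iff.2 le_rfl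
  exact ⟨h1, hl, by rw [v.bit_of_lt hl]; exact h3 hl⟩

lemma Node.Ext.trans_init {t v w : Node κ} {b : Bool} (h : t.Ext b v) (h' : v.Init w) :
    t.Ext b w := by
  obtain ⟨h1, h2, h3⟩ := h
  refine ⟨h1.trans h', lt_of_lt_of_le h2 (Node.init_iff.1 h').1, ?_⟩
  rw [← (Node.init_iff.1 h').2 _ h2, h3]

lemma Node.IsSnoc.init_of_ext {t v w : Node κ} {b : Bool} (h : t.IsSnoc b v) (h' : t.Ext b w) :
    v.Init w := by
  have he := h.ext
  obtain ⟨h1, h2, -⟩ := h
  rw [Node.init_iff]
  refine ⟨by rw [h2]; exact Order.add_one_le_iff.2 h'.2.1, fun i hi => ?_⟩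
  rw [h2, Order.lt_add_one_iff] at hi
  rcases hi.lt_or_eq with hi | hi
  · rw [← (Node.init_iff.1 h1).2 i hi, (Node.init_iff.1 h'.1).2 i hi]
  · subst hi
    rw [he.2.2, h'.2.2]

variable {P : Set (Set (Node κ))}

/-- If all nodes of `r` are comparable with `a` then `a` lies below every splitting node of `r`. -/
lemma init_of_splitting {T r : Set (Node κ)} {a w : Node κ} (hr : r ⊆ below T a) (hw : w ∈ r)
    (hs : Splitting r w) : a.Init w := by
  rcases (hr hw).2 with h | h
  swap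
  · exact h
  by_cases hl : w.len = a.len
  · rw [h.eq_of_len hl]; exact a.init_refl
  have hlt : w.len < a.len := lt_of_le_of_ne (Node.init_iff.1 h).1 hl
  obtain ⟨v, hv, hsn⟩ := hs (!a.bit w.len)
  have he := hsn.ext
  have key : v.bit w.len = a.bit w.len := by
    rcases (hr hv).2 with h' | h'
    · exact (Node.init_iff.1 h').2 _ he.2.1
    · exact ((Node.init_iff.1 h').2 _ hlt).symm
  rw [he.2.2] at key
  exact absurd key (by simp)

lemma Splitting.mono {S T : Set (Node κ)} {w : Node κ} (h : S ⊆ T) (hs : Splitting S w) :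
    Splitting T w := fun b => by
  obtain ⟨v, hv, hsn⟩ := hs b
  exact ⟨v, h hv, hsn⟩

lemma exists_splitting_mem (hP : IsTreeForcing P) {T : Set (Node κ)} (hT : T ∈ P) :
    ∃ w ∈ T, Splitting T w := by
  obtain ⟨t, ht⟩ := hP.tree_nonempty T hT
  obtain ⟨s, hs, -, hsp⟩ := hP.exists_splitting T hT t ht
  exact ⟨s, hs, hsp⟩

lemma below_anti (T : Set (Node κ)) {a b : Node κ} (h : a.Init b) : below T b ⊆ below T a := by
  rintro s ⟨hs, hc⟩
  refine ⟨hs, ?_⟩
  rcases hc with hc | hc
  · rw [Node.init_iff] at hc h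
    rcases le_total s.len a.len with hl | hl
    · left
      exact Node.init_iff.2 ⟨hl, fun i hi => (hc.2 i hi).trans (h.2 i (lt_of_lt_of_le hi hl)).symm⟩
    · right
      exact Node.init_iff.2 ⟨hl, fun i hi => (h.2 i hi).trans (hc.2 i (lt_of_lt_of_le hi hl)).symm⟩
  · exact Or.inr (h.trans hc)

/-- Conditions are closed under limits of short chains of nodes. -/
lemma exists_splitting_above (hP : IsTreeForcing P) (hc : IsLtClosed P) {T : Set (Node κ)}
    (hT : T ∈ P) {δ : Ordinal.{u}} (hδ : δ < κ.ord) (t : Iio δ → Node κ) (ht : ∀ i, t i ∈ T)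
    (hm : ∀ i j, i ≤ j → (t i).Init (t j)) :
    ∃ w ∈ T, Splitting T w ∧ ∀ i, (t i).Init w := by
  rcases isEmpty_or_nonempty (Iio δ) with he | ⟨⟨i₀⟩⟩
  · obtain ⟨w, hw, hs⟩ := exists_splitting_mem hP hT
    exact ⟨w, hw, hs, fun i => he.elim i⟩
  obtain ⟨q, hq, hle⟩ := hc δ hδ (fun i => below T (t i)) (fun i => hP.below_mem T hT _ (ht i))
    (fun i j hij => below_anti T (hm i j hij))
  obtain ⟨w, hw, hs⟩ := exists_splitting_mem hP hq
  have hqT : q ⊆ T := fun x hx => (hle i₀ hx).1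
  exact ⟨w, hqT hw, hs.mono hqT, fun i => init_of_splitting (hle i) hw hs⟩

open Classical in
/-- An embedding of the full binary tree into `T`. -/
noncomputable def emb (T : Set (Node κ)) (s : Node κ) : Node κ :=
  if h : ∃ w ∈ T, Splitting T w ∧ ∀ i : Iio s.len, (emb T (s.restr i.1)).Ext (s.bit i.1) w then
    h.choose
  else s
termination_by s.len
decreasing_by
  all_goals exact lt_of_le_of_lt (min_le_left _ _) i.2

lemma emb_spec (hP : IsTreeForcing P) (hc : IsLtClosed P) {T : Set (Node κ)} (hT : T ∈ P)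
    (s : Node κ) : emb T s ∈ T ∧ Splitting T (emb T s) ∧
      ∀ i < s.len, (emb T (s.restr i)).Ext (s.bit i) (emb T s) := by
  induction hs : s.len using WellFoundedLT.induction generalizing s with
  | ind a IH =>
  subst hs
  have IH' : ∀ i < s.len, emb T (s.restr i) ∈ T ∧ Splitting T (emb T (s.restr i)) ∧
      ∀ j < i, (emb T (s.restr j)).Ext (s.bit j) (emb T (s.restr i)) := by
    intro i hi
    have hl : (s.restr i).len = i := by simp [hi.le]
    obtain ⟨h1, h2, h3⟩ := IH i hi (s.restr i) hl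
    refine ⟨h1, h2, fun j hj => ?_⟩
    have := h3 j hj
    rwa [Node.restr_restr _ hj.le, Node.restr_bit _ (by simp [hj, hj.trans hi])] at this
  have hex : ∃ w ∈ T, Splitting T w ∧
      ∀ i : Iio s.len, (emb T (s.restr i.1)).Ext (s.bit i.1) w := by
    choose v hv hsn using fun i : Iio s.len => (IH' i.1 i.2).2.1 (s.bit i.1)
    obtain ⟨w, hw, hsw, hiw⟩ := exists_splitting_above hP hc hT s.len_lt v hv (by
      intro i j hij
      rcases hij.lt_or_eq with hij | hij
      · exact ((hsn i).init_of_ext ((IH' j.1 j.2).2.2 i.1 hij)).trans (hsn j).1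
      · subst hij; exact Node.init_refl _)
    exact ⟨w, hw, hsw, fun i => (hsn i).ext.trans_init (hiw i)⟩
  have heq : emb T s = hex.choose := by
    rw [emb, dif_pos hex]
  obtain ⟨h1, h2, h3⟩ := hex.choose_spec
  rw [heq]
  exact ⟨h1, h2, fun i hi => h3 ⟨i, hi⟩⟩

lemma len_le_emb (hP : IsTreeForcing P) (hc : IsLtClosed P) {T : Set (Node κ)} (hT : T ∈ P)
    (s : Node κ) : s.len ≤ (emb T s).len := by
  induction hs : s.len using WellFoundedLT.induction generalizing s with
  | ind a IH =>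
  subst hs
  refine le_of_forall_lt fun i hi => ?_
  have hl : (s.restr i).len = i := by simp [hi.le]
  exact lt_of_le_of_lt (IH i hi (s.restr i) hl) ((emb_spec hP hc hT s).2.2 i hi).2.1

lemma exists_mem_len (hP : IsTreeForcing P) (hc : IsLtClosed P) {T : Set (Node κ)} (hT : T ∈ P)
    {a : Ordinal.{u}} (ha : a < κ.ord) : ∃ t ∈ T, t.len = a := by
  let s : Node κ := ⟨a, ha, fun _ => false⟩
  refine ⟨(emb T s).restr a, hP.isTree T hT _ _ (Node.restr_init _ _) (emb_spec hP hc hT s).1, ?_⟩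
  simpa using len_le_emb hP hc hT s

lemma emb_diverge (hP : IsTreeForcing P) (hc : IsLtClosed P) {T : Set (Node κ)} (hT : T ∈ P)
    {s s' : Node κ} (hl : s.len = s'.len) (hne : s ≠ s') :
    ∃ i < s.len, (emb T (s.restr i)).len < (emb T s).len ∧
      (emb T (s.restr i)).len < (emb T s').len ∧
      (emb T s).bit (emb T (s.restr i)).len ≠ (emb T s').bit (emb T (s.restr i)).len := by
  have hex : ∃ i, i < s.len ∧ s.bit i ≠ s'.bit i := by
    by_contra! h
    exact hne (Node.ext_bit hl h)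
  obtain ⟨i, ⟨hi, hb⟩, hmin⟩ := wellFounded_lt.has_min {i | i < s.len ∧ s.bit i ≠ s'.bit i} hex
  have hr : s.restr i = s'.restr i := by
    apply Node.ext_bit
    · simp [hl]
    · intro j hj
      simp only [Node.restr_len] at hj
      rw [Node.restr_bit _ hj, Node.restr_bit _ (hl ▸ hj)]
      by_contra hne'
      exact hmin j ⟨lt_of_lt_of_le hj (min_le_right _ _), hne'⟩ (lt_of_lt_of_le hj (min_le_left _ _))
  have h1 := (emb_spec hP hc hT s).2.2 i hi
  have h2 := (emb_spec hP hc hT s').2.2 i (hl ▸ hi)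
  rw [← hr] at h2
  refine ⟨i, hi, h1.2.1, h2.2.1, ?_⟩
  rw [h1.2.2, h2.2.2]
  exact hb

lemma mk_level {a : Ordinal.{u}} (ha : a < κ.ord) :
    #{s : Node κ | s.len = a} = 2 ^ Cardinal.lift.{u + 1} a.card := by
  have e : {s : Node κ | s.len = a} ≃ (Iio a → Bool) :=
    { toFun := fun s i => s.1.bit i.1
      invFun := fun f => ⟨⟨a, ha, f⟩, rfl⟩
      left_inv := by
        rintro ⟨s, hs⟩
        have hs' : s.len = a := hs
        subst hs'
        apply Subtype.ext
        refine Node.ext_bit (s := ⟨s.len, ha, fun i => s.bit i.1⟩) rfl ?_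
        intro i hi
        rw [Node.bit_of_lt _ hi]
      right_inv := by
        intro f
        funext i
        exact Node.bit_of_lt ⟨a, ha, f⟩ i.2 }
  rw [Cardinal.mk_congr e]
  simp [Cardinal.mk_Iio_ordinal]

lemma two_pow_le_of_cc (hP : IsTreeForcing P) (hc : IsLtClosed P) (hcc : IsSuccCC P)
    {a : Ordinal.{u}} :
    #{s : Node κ | s.len = a} ≤ Cardinal.lift.{u + 1} κ := by
  obtain ⟨T, hT⟩ := hP.nonempty
  let f : {s : Node κ | s.len = a} → Set (Node κ) := fun s => below T (emb T s.1)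
  have hf : ∀ s s', Compatible P (f s) (f s') → s = s' := by
    rintro s s' ⟨r, hr, h1, h2⟩
    by_contra hne
    have hl : s.1.len = s'.1.len := s.2.trans s'.2.symm
    obtain ⟨i, -, hi1, hi2, hb⟩ := emb_diverge hP hc hT hl (fun h => hne (Subtype.ext h))
    obtain ⟨w, hw, hs⟩ := exists_splitting_mem hP hr
    have e1 := (Node.init_iff.1 (init_of_splitting h1 hw hs)).2 _ hi1
    have e2 := (Node.init_iff.1 (init_of_splitting h2 hw hs)).2 _ hi2
    exact hb (e1.trans e2.symm)
  have hmem : ∀ s, f s ∈ P := fun s => hP.below_mem T hT _ (emb_spec hP hc hT s.1).1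
  have hinj : Function.Injective f := by
    intro s s' h
    exact hf s s' ⟨f s, hmem s, subset_rfl, h ▸ subset_rfl⟩
  rw [← Cardinal.mk_range_eq f hinj]
  apply hcc
  · rintro _ ⟨s, rfl⟩
    exact hmem s
  · rintro _ ⟨s, rfl⟩ _ ⟨s', rfl⟩ hne hcomp
    exact hne (by rw [hf s s' hcomp])

lemma exists_code (hP : IsTreeForcing P) (hc : IsLtClosed P) (hcc : IsSuccCC P) :
    ∃ e : Node κ → Iio κ.ord, ∀ s t, s.len = t.len → e s = e t → s = t := by
  have h : ∀ a : Ordinal.{u}, Nonempty ({s : Node κ | s.len = a} ↪ Iio κ.ord) := by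
    intro a
    rw [← Cardinal.le_def, Cardinal.mk_Iio_ordinal, Cardinal.card_ord]
    exact two_pow_le_of_cc hP hc hcc
  let g := fun a => (h a).some
  refine ⟨fun s => g s.len ⟨s, rfl⟩, ?_⟩
  rintro ⟨a, ha, f⟩ ⟨b, hb, f'⟩ hl he
  simp only at hl
  subst hl
  exact congrArg Subtype.val ((g a).injective he)

lemma eq_of_mem_below {T : Set (Node κ)} {t s : Node κ} (hs : s ∈ below T t) (hl : s.len = t.len) :
    s = t := by
  rcases hs.2 with h | h
  · exact h.eq_of_len hl
  · exact (h.eq_of_len hl.symm).symm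

/-- The name of the function sending `α` to the code of the generic branch restricted to `α`. -/
def codeName (hP : IsTreeForcing P) (hc : IsLtClosed P) (e : Node κ → Iio κ.ord) : Name P where
  forces p α β := ∀ t ∈ p, t.len = α.1 → e t = β
  mono _ _ _ _ hqp _ _ h t ht hl := h t (hqp ht) hl
  unique p hp α β γ h1 h2 := by
    obtain ⟨t, ht, hl⟩ := exists_mem_len hP hc hp α.2
    exact (h1 t ht hl).symm.trans (h2 t ht hl)
  dense p hp α := by
    obtain ⟨t, ht, hl⟩ := exists_mem_len hP hc hp α.2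
    refine ⟨below p t, hP.below_mem p hp t ht, fun x hx => hx.1, e t, fun s hs hsl => ?_⟩
    rw [eq_of_mem_below hs (hsl.trans hl.symm)]
  regular p hp α β h t ht hl := by
    obtain ⟨r, hr, hrq, hf⟩ := h (below p t) (hP.below_mem p hp t ht) (fun x hx => hx.1)
    obtain ⟨s, hs, hsl⟩ := exists_mem_len hP hc hr α.2
    rw [← eq_of_mem_below (hrq hs) (hsl.trans hl.symm)]
    exact hf s hs hsl

lemma mk_lt_levels_le {μ : Cardinal.{u}} (hμ : ℵ₀ ≤ μ) (W : Set (Node κ)) {a : Ordinal.{u}}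
    (ha : a.card ≤ μ)
    (h : ∀ i < a, #{s : Node κ | s ∈ W ∧ s.len = i} ≤ Cardinal.lift.{u + 1} μ) :
    #{s : Node κ | s ∈ W ∧ s.len < a} ≤ Cardinal.lift.{u + 1} μ := by
  have hU : {s : Node κ | s ∈ W ∧ s.len < a} =
      ⋃ i : Iio a, {s : Node κ | s ∈ W ∧ s.len = i.1} := by
    ext s
    simp only [mem_ofPred_eq, mem_iUnion]
    constructor
    · rintro ⟨h1, h2⟩
      exact ⟨⟨s.len, h2⟩, h1, rfl⟩
    · rintro ⟨i, h1, h2⟩
      exact ⟨h1, h2 ▸ i.2⟩
  rw [hU]
  have hμ' : ℵ₀ ≤ Cardinal.lift.{u + 1} μ := by simpa using hμ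
  refine (Cardinal.mk_iUnion_le _).trans ?_
  refine (mul_le_mul' (?_ : _ ≤ Cardinal.lift.{u + 1} μ) (ciSup_le' fun i : Iio a => h i.1 i.2)).trans
    (Cardinal.mul_eq_self hμ').le
  rw [Cardinal.mk_Iio_ordinal]
  exact Cardinal.lift_le.2 ha

/-- A condition cannot have all its levels of size at most `μ`. -/
lemma not_all_levels_small {μ : Cardinal.{u}} (hμ : ℵ₀ ≤ μ) (hκ : κ = Order.succ μ)
    (hP : IsTreeForcing P) (hc : IsLtClosed P) {T : Set (Node κ)} (hT : T ∈ P)
    (h : ∀ i < κ.ord, #{s : Node κ | s ∈ T ∧ s.len = i} ≤ Cardinal.lift.{u + 1} μ) : False := by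
  have hreg : κ.IsRegular := hκ ▸ Cardinal.isRegular_succ hμ
  have hcard : ∀ a < κ.ord, a.card ≤ μ := by
    intro a ha
    rw [Cardinal.lt_ord, hκ, Order.lt_succ_iff] at ha
    exact ha
  have hlim := Cardinal.isSuccLimit_ord hreg.aleph0_le
  have main : ∀ a : Ordinal.{u}, a < κ.ord →
      #{s : Node κ | s.len = a} ≤ Cardinal.lift.{u + 1} μ := by
    intro a
    induction a using WellFoundedLT.induction with
    | ind a IH =>
    intro ha
    have hU : #{s : Node κ | s ∈ (univ : Set (Node κ)) ∧ s.len < a} ≤ Cardinal.lift.{u + 1} μ :=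
      mk_lt_levels_le hμ univ (hcard a ha) (fun i hi => by simpa using IH i hi (hi.trans ha))
    let U := {s : Node κ | s ∈ (univ : Set (Node κ)) ∧ s.len < a}
    let β : Ordinal.{u} := ⨆ s : U, (emb T s.1).len
    have hβ : β < κ.ord := by
      refine Ordinal.lift_iSup_lt_of_lt_cof ?_ (fun s : U => (emb T s.1).len_lt)
      rw [← Ordinal.lift_cof, hreg.cof_ord, Cardinal.lift_id'.{u, u + 1}]
      refine lt_of_le_of_lt hU ?_
      rw [Cardinal.lift_lt, hκ]
      exact Order.lt_succ μ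
    have hle : ∀ s : Node κ, s.len < a → (emb T s).len ≤ β := by
      intro s hs
      exact le_ciSup (f := fun s : U => (emb T s.1).len)
        ⟨κ.ord, by rintro _ ⟨s, rfl⟩; exact (emb T s.1).len_lt.le⟩ ⟨s, trivial, hs⟩
    have hβ2 : β + 1 + 1 < κ.ord := hlim.add_one_lt (hlim.add_one_lt hβ)
    refine le_trans ?_ (mk_lt_levels_le hμ T (hcard _ hβ2) (fun i hi => h i (hi.trans hβ2)))
    refine Cardinal.mk_le_of_injective
      (f := fun s => ⟨(emb T s.1).restr (β + 1),
        hP.isTree T hT _ _ (Node.restr_init _ _) (emb_spec hP hc hT s.1).1,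
        lt_of_le_of_lt (min_le_left _ _) (Order.lt_add_one_iff.2 le_rfl)⟩) ?_
    intro s s' hss
    by_contra hne
    have hl : s.1.len = s'.1.len := s.2.trans s'.2.symm
    obtain ⟨i, hi, hi1, hi2, hb⟩ := emb_diverge hP hc hT hl (fun h => hne (Subtype.ext h))
    have hγ : (emb T (s.1.restr i)).len < β + 1 := by
      apply Order.lt_add_one_iff.2
      apply hle
      have : s.1.len = a := s.2
      exact lt_of_le_of_lt (min_le_left _ _) (this ▸ hi)
    have hss' : (emb T s.1).restr (β + 1) = (emb T s'.1).restr (β + 1) := congrArg Subtype.val hss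
    apply hb
    rw [← Node.restr_bit _ (lt_min hγ hi1), ← Node.restr_bit _ (lt_min hγ hi2), hss']
  have hμκ : μ.ord < κ.ord := by
    rw [Cardinal.ord_lt_ord, hκ]
    exact Order.lt_succ μ
  have := main μ.ord hμκ
  rw [mk_level hμκ, Cardinal.card_ord] at this
  exact absurd this (not_le.2 (Cardinal.cantor _))

theorem not_bounding {μ : Cardinal.{u}} (hμ : ℵ₀ ≤ μ) (hκ : κ = Order.succ μ)
    (hP : IsTreeForcing P) (hc : IsLtClosed P) (hcc : IsSuccCC P) : ¬ IsBounding P := by
  intro hb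
  obtain ⟨e, he⟩ := exists_code hP hc hcc
  obtain ⟨p, hp⟩ := hP.nonempty
  obtain ⟨q, hq, -, z, hz⟩ := hb (codeName hP hc e) p hp
  refine not_all_levels_small hμ hκ hP hc hq fun i hi => ?_
  have hlt : ∀ t ∈ q, t.len = i → e t < z ⟨i, hi⟩ := by
    intro t ht hl
    refine hz ⟨i, hi⟩ (e t) (below q t) (hP.below_mem q hq t ht) (fun x hx => hx.1) ?_
    intro s hs hsl
    rw [eq_of_mem_below hs (hsl.trans hl.symm)]
  have h1 : #{s : Node κ | s ∈ q ∧ s.len = i} ≤ #(Iio (z ⟨i, hi⟩).1) := by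
    refine Cardinal.mk_le_of_injective
      (f := fun s => ⟨(e s.1).1, hlt s.1 s.2.1 s.2.2⟩) ?_
    intro s s' hss
    apply Subtype.ext
    apply he _ _ (s.2.2.trans s'.2.2.symm)
    exact Subtype.ext (congrArg (fun x : Iio (z ⟨i, hi⟩).1 => x.1) hss)
  refine h1.trans ?_
  rw [Cardinal.mk_Iio_ordinal, Cardinal.lift_le]
  have := (z ⟨i, hi⟩).2
  rw [mem_Iio, Cardinal.lt_ord] at this
  exact Order.lt_succ_iff.1 (hκ ▸ this)

end Pool.Agent.Work.MP_c1fc37_lc
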