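import Pool.Agent.Work.MP_c1fc37_lc.Defs

/-!
Strategic closure of tree forcings.
-/

universe u

namespace Pool.Agent.Work.MP_c1fc37_lc

open Cardinal Set

variable {κ : Cardinal.{u}}

/-- `<κ`-strategically closed: for every `δ < κ` the second player has a strategy `σ` that survives
`δ` rounds of the descending chain game. The first player opens with any condition `q 0`; in round
`i > 0` (limit rounds included) the second player moves first and plays `σ i` of the earlier moves
`q j`, `j < i`, of the first player, which must be a condition below all of them; then the first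
player plays a condition `q i` below it. -/
def IsLtStratClosed (P : Set (Set (Node κ))) : Prop :=
  ∀ δ : Ordinal.{u}, δ < κ.ord →
    ∃ σ : (i : Ordinal.{u}) → (Iio i → Set (Node κ)) → Set (Node κ),
      ∀ i : Ordinal.{u}, 0 < i → i ≤ δ → ∀ q : Iio i → Set (Node κ), (∀ j, q j ∈ P) →
        (∀ j : Iio i, 0 < j.1 →
          q j ⊆ σ j.1 fun k => q ⟨k.1, mem_Iio.2 ((mem_Iio.1 k.2).trans (mem_Iio.1 j.2))⟩) →
        σ i q ∈ P ∧ ∀ j, σ i q ⊆ q j

end Pool.Agent.Work.MP_c1fc37_lc
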