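import Pool.Agent.Work.MP_c1fc37_lc.Proof
import Pool.Agent.Work.MP_c1fc37_lc.StratDefs

universe u

namespace Pool.Agent.Work.MP_c1fc37_lc.St

open Cardinal Set

variable {κ : Cardinal.{u}} {P : Set (Set (Node κ))}

/-- `e` embeds the binary tree of height `δ` into the splitting nodes of `T`. -/
def IsEmb (T : Set (Node κ)) (δ : Ordinal.{u}) (e : Node κ → Node κ) : Prop :=
  ∀ s : Node κ, s.len ≤ δ → e s ∈ T ∧ Splitting T (e s) ∧
    ∀ i < s.len, (e (s.restr i)).Ext (s.bit i) (e s)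

open Classical in
/-- The moves of the second player along the branch `f`. -/
noncomputable def play (T : Set (Node κ))
    (σ : (i : Ordinal.{u}) → (Iio i → Set (Node κ)) → Set (Node κ))
    (mv : Set (Node κ) → Bool → Set (Node κ)) (f : Ordinal.{u} → Bool) (i : Ordinal.{u}) :
    Set (Node κ) :=
  if i = 0 then T else σ i fun j => mv (play T σ mv f j.1) (f j.1)
termination_by i
decreasing_by exact j.2

lemma play_congr (T : Set (Node κ))
    (σ : (i : Ordinal.{u}) → (Iio i → Set (Node κ)) → Set (Node κ))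
    (mv : Set (Node κ) → Bool → Set (Node κ)) (f g : Ordinal.{u} → Bool) (i : Ordinal.{u})
    (h : ∀ j < i, f j = g j) : play T σ mv f i = play T σ mv g i := by
  induction i using WellFoundedLT.induction with
  | ind i IH =>
  rw [play, play.eq_1 T σ mv g]
  split_ifs
  · rfl
  · congr 1
    funext j
    rw [IH j.1 j.2 (fun k hk => h k (hk.trans j.2)), h j.1 j.2]

lemma exists_emb (hP : IsTreeForcing P) (hc : IsLtStratClosed P) {T : Set (Node κ)} (hT : T ∈ P)
    {δ : Ordinal.{u}} (hδ : δ < κ.ord) : ∃ e, IsEmb T δ e := by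
  obtain ⟨σ, hσ⟩ := hc δ hδ
  obtain ⟨t₀, -⟩ := hP.tree_nonempty T hT
  have h1 : ∀ r : Set (Node κ), ∃ w : Node κ, r ∈ P → w ∈ r ∧ Splitting r w := fun r => by
    by_cases hr : r ∈ P
    · obtain ⟨w, hw⟩ := exists_splitting_mem hP hr
      exact ⟨w, fun _ => hw⟩
    · exact ⟨t₀, fun h => absurd h hr⟩
  choose spl hspl using h1
  have h2 : ∀ (r : Set (Node κ)) (b : Bool), ∃ v : Node κ,
      r ∈ P → v ∈ r ∧ (spl r).IsSnoc b v := fun r b => by
    by_cases hr : r ∈ P
    · obtain ⟨v, hv⟩ := (hspl r hr).2 b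
      exact ⟨v, fun _ => hv⟩
    · exact ⟨t₀, fun h => absurd h hr⟩
  choose sn hsn using h2
  let mv : Set (Node κ) → Bool → Set (Node κ) := fun r b => below r (sn r b)
  have key : ∀ (f : Ordinal.{u} → Bool) (i : Ordinal.{u}), i ≤ δ →
      play T σ mv f i ∈ P ∧ play T σ mv f i ⊆ T ∧
        ∀ j < i, play T σ mv f i ⊆ mv (play T σ mv f j) (f j) := by
    intro f i
    induction i using WellFoundedLT.induction with
    | ind i IH =>
    intro hi
    by_cases h0 : i = 0
    · subst h0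
      rw [play, if_pos rfl]
      exact ⟨hT, subset_rfl, fun j hj => absurd hj (not_lt_bot (a := j))⟩
    have hpos : 0 < i := pos_iff_ne_zero.2 h0
    have h3 := hσ i hpos hi (fun j => mv (play T σ mv f j.1) (f j.1))
      (fun j => by
        have hj := (IH j.1 j.2 (le_trans (le_of_lt j.2) hi)).1
        exact hP.below_mem _ hj _ (hsn _ _ hj).1)
      (fun j hj => by
        intro x hx
        have hx1 : x ∈ play T σ mv f j.1 := hx.1
        rw [play, if_neg hj.ne'] at hx1
        exact hx1)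
    rw [play, if_neg h0]
    refine ⟨h3.1, fun x hx => ?_, fun j hj => h3.2 ⟨j, hj⟩⟩
    exact (IH 0 hpos (hpos.le.trans hi)).2.1 (h3.2 ⟨0, hpos⟩ hx).1
  refine ⟨fun s => spl (play T σ mv s.bit s.len), fun s hs => ?_⟩
  obtain ⟨k1, k2, k3⟩ := key s.bit s.len hs
  refine ⟨k2 (hspl _ k1).1, (hspl _ k1).2.mono k2, fun i hi => ?_⟩
  have e1 : play T σ mv (s.restr i).bit (s.restr i).len = play T σ mv s.bit i := by
    rw [Node.restr_len, min_eq_left hi.le]
    exact play_congr T σ mv _ _ i fun j hj => s.restr_bit (lt_min hj (hj.trans hi))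
  have hiP := (key s.bit i (hi.le.trans hs)).1
  simp only [e1]
  exact (hsn _ (s.bit i) hiP).2.ext.trans_init
    (init_of_splitting (k3 i hi) (hspl _ k1).1 (hspl _ k1).2)

lemma len_le_emb {T : Set (Node κ)} {δ : Ordinal.{u}} {e : Node κ → Node κ} (he : IsEmb T δ e)
    (s : Node κ) (hs : s.len ≤ δ) : s.len ≤ (e s).len := by
  induction hl : s.len using WellFoundedLT.induction generalizing s with
  | ind a IH =>
  subst hl
  refine le_of_forall_lt fun i hi => ?_
  have hl : (s.restr i).len = i := by simp [hi.le]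
  exact lt_of_le_of_lt (IH i hi (s.restr i) ((le_of_eq hl).trans (hi.le.trans hs)) hl) ((he s hs).2.2 i hi).2.1

lemma exists_mem_len (hP : IsTreeForcing P) (hc : IsLtStratClosed P) {T : Set (Node κ)}
    (hT : T ∈ P) {a : Ordinal.{u}} (ha : a < κ.ord) : ∃ t ∈ T, t.len = a := by
  obtain ⟨e, he⟩ := exists_emb hP hc hT ha
  let s : Node κ := ⟨a, ha, fun _ => false⟩
  refine ⟨(e s).restr a, hP.isTree T hT _ _ (Node.restr_init _ _) (he s le_rfl).1, ?_⟩
  simpa using len_le_emb he s le_rfl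

lemma emb_diverge {T : Set (Node κ)} {δ : Ordinal.{u}} {e : Node κ → Node κ} (he : IsEmb T δ e)
    {s s' : Node κ} (hs : s.len ≤ δ) (hl : s.len = s'.len) (hne : s ≠ s') :
    ∃ i < s.len, (e (s.restr i)).len < (e s).len ∧ (e (s.restr i)).len < (e s').len ∧
      (e s).bit (e (s.restr i)).len ≠ (e s').bit (e (s.restr i)).len := by
  have hex : ∃ i, i < s.len ∧ s.bit i ≠ s'.bit i := by
    by_contra! h
    exact hne (Node.ext_bit hl h)
  obtain ⟨i, ⟨hi, hb⟩, hmin⟩ := wellFounded_lt.has_min {i | i < s.len ∧ s.bit i ≠ s'.bit i} hex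
  have hr : s.restr i = s'.restr i := by
    apply Node.ext_bit
    · simp [hl]
    · intro j hj
      simp only [Node.restr_len] at hj
      rw [Node.restr_bit _ hj, Node.restr_bit _ (hl ▸ hj)]
      by_contra hne'
      exact hmin j ⟨lt_of_lt_of_le hj (min_le_right _ _), hne'⟩ (lt_of_lt_of_le hj (min_le_left _ _))
  have h1 := (he s hs).2.2 i hi
  have h2 := (he s' (hl ▸ hs)).2.2 i (hl ▸ hi)
  rw [← hr] at h2
  refine ⟨i, hi, h1.2.1, h2.2.1, ?_⟩
  rw [h1.2.2, h2.2.2]
  exact hb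

lemma two_pow_le_of_cc (hP : IsTreeForcing P) (hc : IsLtStratClosed P) (hcc : IsSuccCC P)
    {a : Ordinal.{u}} :
    #{s : Node κ | s.len = a} ≤ Cardinal.lift.{u + 1} κ := by
  by_cases ha : a < κ.ord
  swap
  · have : {s : Node κ | s.len = a} = ∅ :=
      eq_empty_of_forall_notMem fun s hs => ha (hs ▸ s.len_lt)
    rw [this]
    simp
  obtain ⟨T, hT⟩ := hP.nonempty
  obtain ⟨e, he⟩ := exists_emb hP hc hT ha
  let f : {s : Node κ | s.len = a} → Set (Node κ) := fun s => below T (e s.1)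
  have hf : ∀ s s', Compatible P (f s) (f s') → s = s' := by
    rintro s s' ⟨r, hr, h1, h2⟩
    by_contra hne
    have hl : s.1.len = s'.1.len := s.2.trans s'.2.symm
    obtain ⟨i, -, hi1, hi2, hb⟩ := emb_diverge he (le_of_eq s.2) hl (fun h => hne (Subtype.ext h))
    obtain ⟨w, hw, hs⟩ := exists_splitting_mem hP hr
    have e1 := (Node.init_iff.1 (init_of_splitting h1 hw hs)).2 _ hi1
    have e2 := (Node.init_iff.1 (init_of_splitting h2 hw hs)).2 _ hi2
    exact hb (e1.trans e2.symm)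
  have hmem : ∀ s, f s ∈ P := fun s => hP.below_mem T hT _ (he s.1 (le_of_eq s.2)).1
  have hinj : Function.Injective f := by
    intro s s' h
    exact hf s s' ⟨f s, hmem s, subset_rfl, h ▸ subset_rfl⟩
  rw [← Cardinal.mk_range_eq f hinj]
  apply hcc
  · rintro _ ⟨s, rfl⟩
    exact hmem s
  · rintro _ ⟨s, rfl⟩ _ ⟨s', rfl⟩ hne hcomp
    exact hne (by rw [hf s s' hcomp])

lemma exists_code (hP : IsTreeForcing P) (hc : IsLtStratClosed P) (hcc : IsSuccCC P) :
    ∃ e : Node κ → Iio κ.ord, ∀ s t, s.len = t.len → e s = e t → s = t := by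
  have h : ∀ a : Ordinal.{u}, Nonempty ({s : Node κ | s.len = a} ↪ Iio κ.ord) := by
    intro a
    rw [← Cardinal.le_def, Cardinal.mk_Iio_ordinal, Cardinal.card_ord]
    exact two_pow_le_of_cc hP hc hcc
  let g := fun a => (h a).some
  refine ⟨fun s => g s.len ⟨s, rfl⟩, ?_⟩
  rintro ⟨a, ha, f⟩ ⟨b, hb, f'⟩ hl he
  simp only at hl
  subst hl
  exact congrArg Subtype.val ((g a).injective he)

/-- The name of the function sending `α` to the code of the generic branch restricted to `α`. -/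
def codeName (hP : IsTreeForcing P) (hc : IsLtStratClosed P) (e : Node κ → Iio κ.ord) :
    Name P where
  forces p α β := ∀ t ∈ p, t.len = α.1 → e t = β
  mono _ _ _ _ hqp _ _ h t ht hl := h t (hqp ht) hl
  unique p hp α β γ h1 h2 := by
    obtain ⟨t, ht, hl⟩ := exists_mem_len hP hc hp α.2
    exact (h1 t ht hl).symm.trans (h2 t ht hl)
  dense p hp α := by
    obtain ⟨t, ht, hl⟩ := exists_mem_len hP hc hp α.2
    refine ⟨below p t, hP.below_mem p hp t ht, fun x hx => hx.1, e t, fun s hs hsl => ?_⟩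
    rw [eq_of_mem_below hs (hsl.trans hl.symm)]
  regular p hp α β h t ht hl := by
    obtain ⟨r, hr, hrq, hf⟩ := h (below p t) (hP.below_mem p hp t ht) (fun x hx => hx.1)
    obtain ⟨s, hs, hsl⟩ := exists_mem_len hP hc hr α.2
    rw [← eq_of_mem_below (hrq hs) (hsl.trans hl.symm)]
    exact hf s hs hsl

/-- A condition cannot have all its levels of size at most `μ`. -/
lemma not_all_levels_small {μ : Cardinal.{u}} (hμ : ℵ₀ ≤ μ) (hκ : κ = Order.succ μ)
    (hP : IsTreeForcing P) (hc : IsLtStratClosed P) {T : Set (Node κ)} (hT : T ∈ P)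
    (h : ∀ i < κ.ord, #{s : Node κ | s ∈ T ∧ s.len = i} ≤ Cardinal.lift.{u + 1} μ) : False := by
  have hreg : κ.IsRegular := hκ ▸ Cardinal.isRegular_succ hμ
  have hcard : ∀ a < κ.ord, a.card ≤ μ := by
    intro a ha
    rw [Cardinal.lt_ord, hκ, Order.lt_succ_iff] at ha
    exact ha
  have hlim := Cardinal.isSuccLimit_ord hreg.aleph0_le
  have hμκ : μ.ord < κ.ord := by
    rw [Cardinal.ord_lt_ord, hκ]
    exact Order.lt_succ μ
  obtain ⟨e, he⟩ := exists_emb hP hc hT hμκ
  have main : ∀ a : Ordinal.{u}, a ≤ μ.ord →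
      #{s : Node κ | s.len = a} ≤ Cardinal.lift.{u + 1} μ := by
    intro a
    induction a using WellFoundedLT.induction with
    | ind a IH =>
    intro ha
    have hU : #{s : Node κ | s ∈ (univ : Set (Node κ)) ∧ s.len < a} ≤ Cardinal.lift.{u + 1} μ :=
      mk_lt_levels_le hμ univ (hcard a (ha.trans_lt hμκ))
        (fun i hi => by simpa using IH i hi (hi.le.trans ha))
    let U := {s : Node κ | s ∈ (univ : Set (Node κ)) ∧ s.len < a}
    let β : Ordinal.{u} := ⨆ s : U, (e s.1).len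
    have hβ : β < κ.ord := by
      refine Ordinal.lift_iSup_lt_of_lt_cof ?_ (fun s : U => (e s.1).len_lt)
      rw [← Ordinal.lift_cof, hreg.cof_ord, Cardinal.lift_id'.{u, u + 1}]
      refine lt_of_le_of_lt hU ?_
      rw [Cardinal.lift_lt, hκ]
      exact Order.lt_succ μ
    have hle : ∀ s : Node κ, s.len < a → (e s).len ≤ β := by
      intro s hs
      exact le_ciSup (f := fun s : U => (e s.1).len)
        ⟨κ.ord, by rintro _ ⟨s, rfl⟩; exact (e s.1).len_lt.le⟩ ⟨s, trivial, hs⟩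
    have hβ2 : β + 1 + 1 < κ.ord := hlim.add_one_lt (hlim.add_one_lt hβ)
    have hsa : ∀ s : {s : Node κ | s.len = a}, s.1.len ≤ μ.ord := fun s => (le_of_eq s.2).trans ha
    refine le_trans ?_ (mk_lt_levels_le hμ T (hcard _ hβ2) (fun i hi => h i (hi.trans hβ2)))
    refine Cardinal.mk_le_of_injective
      (f := fun s => ⟨(e s.1).restr (β + 1),
        hP.isTree T hT _ _ (Node.restr_init _ _) (he s.1 (hsa s)).1,
        lt_of_le_of_lt (min_le_left _ _) (Order.lt_add_one_iff.2 le_rfl)⟩) ?_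
    intro s s' hss
    by_contra hne
    have hl : s.1.len = s'.1.len := s.2.trans s'.2.symm
    obtain ⟨i, hi, hi1, hi2, hb⟩ := emb_diverge he (hsa s) hl (fun h => hne (Subtype.ext h))
    have hγ : (e (s.1.restr i)).len < β + 1 := by
      apply Order.lt_add_one_iff.2
      apply hle
      have : s.1.len = a := s.2
      exact lt_of_le_of_lt (min_le_left _ _) (this ▸ hi)
    have hss' : (e s.1).restr (β + 1) = (e s'.1).restr (β + 1) := congrArg Subtype.val hss
    apply hb
    rw [← Node.restr_bit _ (lt_min hγ hi1), ← Node.restr_bit _ (lt_min hγ hi2), hss']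
  have := main μ.ord le_rfl
  rw [mk_level hμκ, Cardinal.card_ord] at this
  exact absurd this (not_le.2 (Cardinal.cantor _))

theorem not_bounding {μ : Cardinal.{u}} (hμ : ℵ₀ ≤ μ) (hκ : κ = Order.succ μ)
    (hP : IsTreeForcing P) (hc : IsLtStratClosed P) (hcc : IsSuccCC P) : ¬ IsBounding P := by
  intro hb
  obtain ⟨e, he⟩ := exists_code hP hc hcc
  obtain ⟨p, hp⟩ := hP.nonempty
  obtain ⟨q, hq, -, z, hz⟩ := hb (codeName hP hc e) p hp
  refine not_all_levels_small hμ hκ hP hc hq fun i hi => ?_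
  have hlt : ∀ t ∈ q, t.len = i → e t < z ⟨i, hi⟩ := by
    intro t ht hl
    refine hz ⟨i, hi⟩ (e t) (below q t) (hP.below_mem q hq t ht) (fun x hx => hx.1) ?_
    intro s hs hsl
    rw [eq_of_mem_below hs (hsl.trans hl.symm)]
  have h1 : #{s : Node κ | s ∈ q ∧ s.len = i} ≤ #(Iio (z ⟨i, hi⟩).1) := by
    refine Cardinal.mk_le_of_injective
      (f := fun s => ⟨(e s.1).1, hlt s.1 s.2.1 s.2.2⟩) ?_
    intro s s' hss
    apply Subtype.ext
    apply he _ _ (s.2.2.trans s'.2.2.symm)
    exact Subtype.ext (congrArg (fun x : Iio (z ⟨i, hi⟩).1 => x.1) hss)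
  refine h1.trans ?_
  rw [Cardinal.mk_Iio_ordinal, Cardinal.lift_le]
  have := (z ⟨i, hi⟩).2
  rw [mem_Iio, Cardinal.lt_ord] at this
  exact Order.lt_succ_iff.1 (hκ ▸ this)

/-- A `<κ`-closed forcing is `<κ`-strategically closed. -/
theorem strat_of_closed (hc : IsLtClosed P) : IsLtStratClosed P := by
  classical
  intro δ hδ
  refine ⟨fun i q => if h : ∃ r ∈ P, ∀ j, r ⊆ q j then h.choose else ∅, fun i => ?_⟩
  induction i using WellFoundedLT.induction with
  | ind i IH =>
  intro _ hi q hq hleg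
  have hex : ∃ r ∈ P, ∀ j, r ⊆ q j := by
    refine hc i (hi.trans_lt hδ) q hq fun j k hjk => ?_
    rcases hjk.lt_or_eq with hjk | hjk
    · have hk0 : 0 < k.1 := lt_of_le_of_lt bot_le (show j.1 < k.1 from hjk)
      have h := IH k.1 k.2 hk0 ((le_of_lt k.2).trans hi)
        (fun l => q ⟨l.1, mem_Iio.2 ((mem_Iio.1 l.2).trans (mem_Iio.1 k.2))⟩) (fun l => hq _)
        (fun l hl => hleg ⟨l.1, mem_Iio.2 ((mem_Iio.1 l.2).trans (mem_Iio.1 k.2))⟩ hl)
      exact (hleg k hk0).trans (h.2 ⟨j.1, hjk⟩)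
    · rw [hjk]
  simp only [dif_pos hex]
  exact hex.choose_spec

end Pool.Agent.Work.MP_c1fc37_lc.St
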